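import Mathlib
import Pool.Agent.N988.EA.Stm

/-!
# Edwards-Anderson on hierarchical lattices: series composition, law of a branch
-/

open MeasureTheory Set
open scoped ENNReal

namespace Pool.Agent.N665.EA

open Pool.Agent.N988.EA

noncomputable section

/-! ## Series composition -/

theorem ph_neg_left (a b : ℝ) : ph (-a) b = -ph a b := by
  unfold ph
  have h1 : Real.cosh (-a + b) = Real.cosh (a - b) := by
    rw [← Real.cosh_neg]; congr 1; ring
  have h2 : Real.cosh (-a - b) = Real.cosh (a + b) := by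
    rw [← Real.cosh_neg]; congr 1; ring
  rw [h1, h2, Real.log_div (Real.cosh_pos _).ne' (Real.cosh_pos _).ne',
    Real.log_div (Real.cosh_pos _).ne' (Real.cosh_pos _).ne']
  ring

theorem ph_symm (a b : ℝ) : ph b a = ph a b := by
  unfold ph
  have h1 : Real.cosh (b + a) = Real.cosh (a + b) := by
    congr 1; ring
  have h2 : Real.cosh (b - a) = Real.cosh (a - b) := by
    rw [← Real.cosh_neg]; congr 1; ring
  rw [h1, h2]

theorem ph_neg_right (a b : ℝ) : ph a (-b) = -ph a b := by
  rw [ph_symm, ph_neg_left, ph_symm]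

theorem ph_cont : Continuous (fun p : ℝ × ℝ => ph p.1 p.2) := by
  unfold ph
  have h1 : Continuous fun p : ℝ × ℝ => Real.cosh (p.1 + p.2) :=
    Real.continuous_cosh.comp (continuous_fst.add continuous_snd)
  have h2 : Continuous fun p : ℝ × ℝ => Real.cosh (p.1 - p.2) :=
    Real.continuous_cosh.comp (continuous_fst.sub continuous_snd)
  refine Continuous.div_const ?_ 2
  refine Continuous.log (h1.div h2 fun p => (Real.cosh_pos _).ne') fun p => ?_
  exact (div_pos (Real.cosh_pos _) (Real.cosh_pos _)).ne'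

theorem tanh_half_log (x : ℝ) (hx : 0 < x) : Real.tanh (Real.log x / 2) = (x - 1) / (x + 1) := by
  have hy : Real.exp (Real.log x / 2) ^ 2 = x := by
    rw [← Real.exp_nat_mul]
    push_cast
    rw [mul_div_cancel₀ _ (two_ne_zero), Real.exp_log hx]
  have hy0 : 0 < Real.exp (Real.log x / 2) := Real.exp_pos _
  rw [Real.tanh_eq_sinh_div_cosh, Real.sinh_eq, Real.cosh_eq, Real.exp_neg]
  generalize Real.exp (Real.log x / 2) = y at hy hy0
  subst hy
  field_simp

theorem tanh_ph (a b : ℝ) : Real.tanh (ph a b) = Real.tanh a * Real.tanh b := by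
  unfold ph
  have h1 : 0 < Real.cosh (a + b) := Real.cosh_pos _
  have h2 : 0 < Real.cosh (a - b) := Real.cosh_pos _
  have h3 : 0 < Real.cosh a := Real.cosh_pos _
  have h4 : 0 < Real.cosh b := Real.cosh_pos _
  rw [tanh_half_log _ (div_pos h1 h2)]
  have e1 : (Real.cosh (a + b) / Real.cosh (a - b) - 1) / (Real.cosh (a + b) / Real.cosh (a - b) + 1)
      = (Real.cosh (a + b) - Real.cosh (a - b)) / (Real.cosh (a + b) + Real.cosh (a - b)) := by
    field_simp
  rw [e1, Real.cosh_add, Real.cosh_sub, Real.tanh_eq_sinh_div_cosh, Real.tanh_eq_sinh_div_cosh]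
  field_simp
  ring

theorem log_cosh_le (x : ℝ) (hx : 0 ≤ x) : Real.log (Real.cosh x) ≤ x := by
  have h : Real.cosh x ≤ Real.exp x := by
    rw [Real.cosh_eq]
    have : Real.exp (-x) ≤ Real.exp x := Real.exp_le_exp.2 (by linarith)
    linarith
  calc Real.log (Real.cosh x) ≤ Real.log (Real.exp x) := Real.log_le_log (Real.cosh_pos _) h
    _ = x := Real.log_exp x

theorem le_log_cosh (x : ℝ) : x - 1 ≤ Real.log (Real.cosh x) := by
  have h : Real.exp (x - 1) ≤ Real.cosh x := by
    rw [Real.cosh_eq, Real.exp_sub]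
    have h1 : 0 < Real.exp (-x) := Real.exp_pos _
    have h2 : (2 : ℝ) ≤ Real.exp 1 := by
      have := Real.add_one_le_exp (1 : ℝ)
      linarith
    have h3 : Real.exp x / Real.exp 1 ≤ Real.exp x / 2 :=
      div_le_div_of_nonneg_left (Real.exp_pos _).le two_pos h2
    linarith
  calc x - 1 = Real.log (Real.exp (x - 1)) := (Real.log_exp _).symm
    _ ≤ _ := Real.log_le_log (Real.exp_pos _) h

theorem ph_gap (a b M : ℝ) (h1 : -M ≤ a) (_h2 : a ≤ b) (h3 : b ≤ M) :
    (b - a) - 2 ≤ ph b M - ph a M := by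
  unfold ph
  rw [Real.log_div (Real.cosh_pos _).ne' (Real.cosh_pos _).ne',
    Real.log_div (Real.cosh_pos _).ne' (Real.cosh_pos _).ne']
  have e1 := le_log_cosh (b + M)
  have e2 : Real.log (Real.cosh (b - M)) ≤ M - b := by
    have := log_cosh_le (M - b) (by linarith)
    have h : Real.cosh (b - M) = Real.cosh (M - b) := by
      rw [← Real.cosh_neg]; congr 1; ring
    rwa [h]
  have e3 := log_cosh_le (a + M) (by linarith)
  have e4 : M - a - 1 ≤ Real.log (Real.cosh (a - M)) := by
    have := le_log_cosh (M - a)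
    have h : Real.cosh (a - M) = Real.cosh (M - a) := by
      rw [← Real.cosh_neg]; congr 1; ring
    rwa [h]
  linarith

/-- Series composition. -/
theorem t_PH : S_PH :=
  ⟨ph_neg_left, ph_neg_right, fun a b => ph_symm a b, ph_cont, tanh_ph, ph_gap⟩

/-! ## The law of a branch -/

/-- The integral over the square in terms of the part `|t| < ρ`. -/
theorem square_formula (F : ℝ → ℝ → ℝ≥0∞) (hF : Measurable (fun p : ℝ × ℝ => F p.1 p.2))
    (hs : ∀ s t, F s t = F t s) (hn : ∀ s t, F (-s) (-t) = F s t) :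
    ∫⁻ v in Ioo (-1 : ℝ) 1, ∫⁻ u in Ioo (-1 : ℝ) 1, F u v =
      4 * ∫⁻ v in Ioo (0 : ℝ) 1, ∫⁻ u in Ioo (-v) v, F u v := by
  classical
  -- the part `|u| < |v| < 1`
  set T : Set (ℝ × ℝ) := {p | |p.1| < |p.2| ∧ |p.2| < 1} with hT
  have hTm : MeasurableSet T := by
    apply MeasurableSet.inter
    · exact measurableSet_lt (measurable_fst.abs) (measurable_snd.abs)
    · exact measurableSet_lt (measurable_snd.abs) measurable_const
  set A : ℝ → ℝ → ℝ≥0∞ := fun u v => T.indicator (fun p => F p.1 p.2) (u, v) with hA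
  have hAm : Measurable (fun p : ℝ × ℝ => A p.1 p.2) := hF.indicator hTm
  have hAm2 : Measurable (fun p : ℝ × ℝ => A p.2 p.1) := hAm.comp measurable_swap
  -- step 1
  have key : ∀ v : ℝ, (Ioo (-1 : ℝ) 1).indicator (fun v => ∫⁻ u in Ioo (-1 : ℝ) 1, F u v) v =
      ∫⁻ u, (A u v + A v u) := by
    intro v
    have hz : (volume : Measure ℝ) ({v, -v} : Set ℝ) = 0 :=
      (Set.toFinite ({v, -v} : Set ℝ)).measure_zero _
    have hae : ∀ᵐ u : ℝ, u ∉ ({v, -v} : Set ℝ) := by
      exact measure_eq_zero_iff_ae_notMem.1 hz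
    by_cases hv : v ∈ Ioo (-1 : ℝ) 1
    · rw [indicator_of_mem hv, ← lintegral_indicator measurableSet_Ioo]
      apply lintegral_congr_ae
      filter_upwards [hae] with u hu
      have hv1 : |v| < 1 := abs_lt.2 hv
      have hne : |u| ≠ |v| := by
        intro h
        rcases abs_eq_abs.1 h with h | h
        · exact hu (by simp [h])
        · exact hu (by simp [h])
      by_cases hu1 : u ∈ Ioo (-1 : ℝ) 1
      · have hu1' : |u| < 1 := abs_lt.2 hu1
        rw [indicator_of_mem hu1]
        rcases lt_or_gt_of_ne hne with h | h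
        · have m1 : (u, v) ∈ T := ⟨h, hv1⟩
          have m2 : (v, u) ∉ T := fun h' => absurd h'.1 (by simpa using h.le)
          simp only [hA, indicator_of_mem m1, indicator_of_notMem m2, add_zero]
        · have m1 : (u, v) ∉ T := fun h' => absurd h'.1 (by simpa using h.le)
          have m2 : (v, u) ∈ T := ⟨h, hu1'⟩
          simp only [hA, indicator_of_mem m2, indicator_of_notMem m1, zero_add]
          exact hs u v
      · rw [indicator_of_notMem hu1]
        have hu1' : ¬ |u| < 1 := fun h => hu1 (abs_lt.1 h)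
        have m1 : (u, v) ∉ T := fun h' => hu1' (lt_trans h'.1 h'.2)
        have m2 : (v, u) ∉ T := fun h' => hu1' h'.2
        simp only [hA, indicator_of_notMem m1, indicator_of_notMem m2, add_zero]
    · rw [indicator_of_notMem hv]
      have hv1 : ¬ |v| < 1 := fun h => hv (abs_lt.1 h)
      symm
      rw [lintegral_eq_zero_iff']
      · refine Filter.Eventually.of_forall fun u => ?_
        have m1 : (u, v) ∉ T := fun h' => hv1 h'.2
        have m2 : (v, u) ∉ T := fun h' => hv1 (lt_trans h'.1 h'.2)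
        simp only [hA, indicator_of_notMem m1, indicator_of_notMem m2, add_zero, Pi.zero_apply]
      · exact ((hAm.comp (measurable_id.prodMk measurable_const)).add
          (hAm2.comp (measurable_id.prodMk measurable_const))).aemeasurable
  have hm1 : ∀ v, Measurable fun u => A u v := fun v =>
    hAm.comp (measurable_id.prodMk measurable_const)
  have hm2 : ∀ v, Measurable fun u => A v u := fun v =>
    hAm2.comp (measurable_id.prodMk measurable_const)
  have hmi : Measurable fun v => ∫⁻ u, A u v := hAm2.lintegral_prod_right'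
  -- step 2: the two parts agree
  have e1 : ∫⁻ v in Ioo (-1 : ℝ) 1, ∫⁻ u in Ioo (-1 : ℝ) 1, F u v =
      2 * ∫⁻ v, ∫⁻ u, A u v := by
    rw [← lintegral_indicator measurableSet_Ioo]
    simp_rw [key]
    have : ∀ v, ∫⁻ u, (A u v + A v u) = (∫⁻ u, A u v) + ∫⁻ u, A v u := fun v =>
      lintegral_add_left (hm1 v) _
    simp_rw [this]
    rw [lintegral_add_left hmi, two_mul]
    congr 1
    exact lintegral_lintegral_swap hAm.aemeasurable
  -- step 3: reflection
  set a : ℝ → ℝ≥0∞ := fun v => ∫⁻ u, A u v with ha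
  have hae : ∀ v, a (-v) = a v := by
    intro v
    have h1 : ∫⁻ u, A (-u) (-v) = ∫⁻ u, A u (-v) :=
      lintegral_neg_eq_self (fun u => A u (-v))
    simp only [ha]
    rw [← h1]
    congr 1
    ext u
    have : ((-u, -v) ∈ T) ↔ ((u, v) ∈ T) := by simp [hT]
    by_cases hm : (u, v) ∈ T
    · simp only [hA, indicator_of_mem hm, indicator_of_mem (this.2 hm), hn]
    · simp only [hA, indicator_of_notMem hm, indicator_of_notMem (fun h => hm (this.1 h))]
  have e2 : ∫⁻ v, a v = 2 * ∫⁻ v in Ioi (0 : ℝ), a v := by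
    have h0 : ∫⁻ v, a v = (∫⁻ v in Iio (0 : ℝ), a v) + ∫⁻ v in Ici (0 : ℝ), a v := by
      rw [← lintegral_add_compl a (measurableSet_Iio (a := (0 : ℝ))), compl_Iio]
    have h1 : ∫⁻ v in Ici (0 : ℝ), a v = ∫⁻ v in Ioi (0 : ℝ), a v :=
      setLIntegral_congr Ioi_ae_eq_Ici.symm
    have h2 : ∫⁻ v in Iio (0 : ℝ), a v = ∫⁻ v in Ioi (0 : ℝ), a v := by
      rw [← lintegral_indicator measurableSet_Iio, ← lintegral_indicator measurableSet_Ioi,
        ← lintegral_neg_eq_self ((Iio (0 : ℝ)).indicator a)]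
      congr 1
      ext v
      by_cases hv : 0 < v
      · rw [indicator_of_mem (by simpa using hv), indicator_of_mem (by simpa using hv), hae]
      · rw [indicator_of_notMem (by simpa using hv), indicator_of_notMem (by simpa using hv)]
    rw [h0, h1, h2, two_mul]
  have e3 : ∫⁻ v in Ioi (0 : ℝ), a v = ∫⁻ v in Ioo (0 : ℝ) 1, ∫⁻ u in Ioo (-v) v, F u v := by
    rw [← lintegral_indicator measurableSet_Ioi, ← lintegral_indicator measurableSet_Ioo]
    congr 1
    ext v
    by_cases hv : v ∈ Ioo (0 : ℝ) 1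
    · rw [indicator_of_mem hv, indicator_of_mem (show v ∈ Ioi (0 : ℝ) from hv.1),
        ← lintegral_indicator measurableSet_Ioo]
      simp only [ha]
      congr 1
      ext u
      by_cases hu : u ∈ Ioo (-v) v
      · have m1 : (u, v) ∈ T := ⟨by
          show |u| < |v|
          rw [abs_of_pos hv.1]; exact abs_lt.2 hu, by
          show |v| < 1
          rw [abs_of_pos hv.1]; exact hv.2⟩
        simp only [hA, indicator_of_mem m1, indicator_of_mem hu]
      · have m1 : (u, v) ∉ T := fun h' => hu (by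
          have := h'.1
          simp only at this
          rw [abs_of_pos hv.1] at this
          exact abs_lt.1 this)
        simp only [hA, indicator_of_notMem m1, indicator_of_notMem hu]
    · rw [indicator_of_notMem hv]
      by_cases hv0 : v ∈ Ioi (0 : ℝ)
      · rw [indicator_of_mem hv0]
        have hv1 : ¬ |v| < 1 := fun h => hv ⟨hv0, (abs_lt.1 h).2⟩
        simp only [ha]
        rw [lintegral_eq_zero_iff (hm1 v)]
        refine Filter.Eventually.of_forall fun u => ?_
        have m1 : (u, v) ∉ T := fun h' => hv1 h'.2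
        simp only [hA, indicator_of_notMem m1, Pi.zero_apply]
      · rw [indicator_of_notMem hv0]
  rw [e1, e2, e3, ← mul_assoc]
  norm_num

/-- Integral of a function of two independent variables with the odd quantile function `g`. -/
theorem branch_formula (φ : ℝ → ℝ → ℝ) (p1 : ∀ a b, φ (-a) b = -φ a b)
    (p2 : ∀ a b, φ a (-b) = -φ a b) (p3 : ∀ a b, φ b a = φ a b)
    (p4 : Measurable fun p : ℝ × ℝ => φ p.1 p.2) (ν : Measure ℝ) [IsProbabilityMeasure ν]
    (g : ℝ → ℝ) (gmeas : Measurable g) (godd : ∀ t, g (-t) = -g t)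
    (gint : ∀ f : ℝ → ℝ≥0∞, Measurable f →
      ∫⁻ x, f x ∂ν = (1 / 2 : ℝ≥0∞) * ∫⁻ t in Ioo (-1 : ℝ) 1, f (g t))
    (f : ℝ → ℝ≥0∞) (hf : Measurable f) :
    ∫⁻ x, f x ∂((ν.prod ν).map fun p => φ p.1 p.2) =
      ∫⁻ ρ in Ioo (0 : ℝ) 1, ∫⁻ t in Ioo (-ρ) ρ, f (φ (g t) (g ρ)) := by
  have hfph : Measurable (fun p : ℝ × ℝ => f (φ p.1 p.2)) := hf.comp p4
  have hFm : Measurable (fun p : ℝ × ℝ => f (φ (g p.1) (g p.2))) :=
    hfph.comp ((gmeas.comp measurable_fst).prodMk (gmeas.comp measurable_snd))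
  have hsq := square_formula (fun s t => f (φ (g s) (g t))) hFm
    (fun s t => by simp only [p3]) (fun s t => by simp only [godd, p1, p2, neg_neg])
  rw [lintegral_map hf p4, lintegral_prod_symm _ hfph.aemeasurable]
  have s1 : ∀ y, ∫⁻ x, f (φ x y) ∂ν = (1 / 2 : ℝ≥0∞) * ∫⁻ u in Ioo (-1 : ℝ) 1, f (φ (g u) y) :=
    fun y => gint (fun x => f (φ x y)) (hfph.comp (measurable_id.prodMk measurable_const))
  simp_rw [s1]
  have hm : Measurable fun y => ∫⁻ u in Ioo (-1 : ℝ) 1, f (φ (g u) y) := by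
    have : Measurable (fun p : ℝ × ℝ => f (φ (g p.2) p.1)) :=
      hfph.comp ((gmeas.comp measurable_snd).prodMk measurable_fst)
    exact this.lintegral_prod_right'
  rw [lintegral_const_mul _ hm, gint _ hm]
  rw [hsq, ← mul_assoc, ← mul_assoc]
  have : (1 / 2 : ℝ≥0∞) * (1 / 2) * 4 = 1 := by
    have : (4 : ℝ≥0∞) = 2 * 2 := by norm_num
    rw [this, one_div, mul_mul_mul_comm, ENNReal.inv_mul_cancel (by norm_num) (by norm_num)]
    simp
  rw [this, one_mul]

/-- The gaps of the quantile function. -/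
theorem quantile_gap (ν : Measure ℝ) (g : ℝ → ℝ) (gmono : MonotoneOn g (Ioo (-1) 1))
    (gint : ∀ f : ℝ → ℝ≥0∞, Measurable f →
      ∫⁻ x, f x ∂ν = (1 / 2 : ℝ≥0∞) * ∫⁻ t in Ioo (-1 : ℝ) 1, f (g t)) (q R : ℝ)
    (hw : ∀ x, ν (Ico x (x + R)) < ENNReal.ofReal q) (s t : ℝ) (hsm : s ∈ Ioo (-1 : ℝ) 1)
    (htm : t ∈ Ioo (-1 : ℝ) 1) (hst : s + 2 * q ≤ t) : R ≤ g t - g s := by
  by_contra hcon
  push Not at hcon
  have hb := hw (g s)
  have hm := gint ((Ico (g s) (g s + R)).indicator 1) (measurable_one.indicator measurableSet_Ico)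
  rw [lintegral_indicator_one measurableSet_Ico] at hm
  have hlow : ENNReal.ofReal (t - s) ≤
      ∫⁻ u in Ioo (-1 : ℝ) 1, (Ico (g s) (g s + R)).indicator 1 (g u) := by
    calc ENNReal.ofReal (t - s) = ∫⁻ u in Icc s t, 1 := by
          rw [setLIntegral_one, Real.volume_Icc]
      _ ≤ ∫⁻ u in Icc s t, (Ico (g s) (g s + R)).indicator 1 (g u) := by
          apply setLIntegral_mono' measurableSet_Icc
          intro u hu
          have hum : u ∈ Ioo (-1 : ℝ) 1 := ⟨lt_of_lt_of_le hsm.1 hu.1, lt_of_le_of_lt hu.2 htm.2⟩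
          have j1 : g s ≤ g u := gmono hsm hum hu.1
          have j2 : g u ≤ g t := gmono hum htm hu.2
          rw [indicator_of_mem (show g u ∈ Ico (g s) (g s + R) from ⟨j1, by linarith⟩)]
          simp
      _ ≤ _ := by
          apply lintegral_mono_set
          intro u hu
          exact ⟨lt_of_lt_of_le hsm.1 hu.1, lt_of_le_of_lt hu.2 htm.2⟩
  have hq2 : ENNReal.ofReal q ≤ ν (Ico (g s) (g s + R)) := by
    rw [hm]
    calc ENNReal.ofReal q ≤ ENNReal.ofReal ((t - s) / 2) := ENNReal.ofReal_le_ofReal (by linarith)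
      _ = (1 / 2 : ℝ≥0∞) * ENNReal.ofReal (t - s) := by
          rw [div_eq_inv_mul, ENNReal.ofReal_mul (by norm_num), ENNReal.ofReal_inv_of_pos two_pos]
          norm_num
      _ ≤ _ := by gcongr
  exact absurd hb (not_lt.2 hq2)

/-- The law of a branch is layered. -/
theorem t_LAY (h1 : S_QU) (h2 : S_PH) : S_LAY := by
  intro ν _ hsym q R hq hR hw
  obtain ⟨g, gmono, gmeas, godd, gint⟩ := h1 ν hsym
  obtain ⟨p1, p2, p3, p4, -, p6⟩ := h2
  unfold br
  generalize ph = φ at p1 p2 p3 p4 p6 ⊢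
  have hgg : Measurable (fun p : ℝ × ℝ => φ (g p.2) (g p.1)) :=
    p4.measurable.comp ((gmeas.comp measurable_snd).prodMk (gmeas.comp measurable_fst))
  refine ⟨fun ρ t => φ (g t) (g ρ), hgg, ?_, ?_⟩
  · intro ρ s t h0 h1' hs hst ht
    have hρm : ρ ∈ Ioo (-1 : ℝ) 1 := ⟨by linarith, h1'⟩
    have hρm' : -ρ ∈ Ioo (-1 : ℝ) 1 := ⟨by linarith, by linarith⟩
    have hsm : s ∈ Ioo (-1 : ℝ) 1 := ⟨by linarith, by linarith⟩
    have htm : t ∈ Ioo (-1 : ℝ) 1 := ⟨by linarith, by linarith⟩
    have i1 : g (-ρ) ≤ g s := gmono hρm' hsm hs.le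
    have i2 : g s ≤ g t := gmono hsm htm (by linarith)
    have i3 : g t ≤ g ρ := gmono htm hρm ht.le
    rw [godd] at i1
    have i4 := p6 (g s) (g t) (g ρ) i1 i2 i3
    have i5 : R ≤ g t - g s := quantile_gap ν g gmono gint q R hw s t hsm htm hst
    show φ (g s) (g ρ) + (R - 2) ≤ φ (g t) (g ρ)
    linarith
  · intro f hf
    exact branch_formula φ p1 p2 p3 p4.measurable ν g gmeas godd gint f hf

end

end Pool.Agent.N665.EA
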