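import Mathlib
import Pool.Agent.N502.FR.Stm

/-!
# Project FR (MP_c890a7_co), leaf RNG: the ranges of the sums of reciprocal hook lengths
-/

set_option autoImplicit false

open Finset

namespace Pool.Agent.N665.FR_RNG

open Pool.Agent.N502.FR
open Pool.Agent.H13R3.WB (IsLow prob)

theorem sh_comm {P : Type} [Fintype P] [PartialOrder P] (x y : P) : sh x y = sh y x := by
  unfold sh
  congr 1
  ext u
  simp only [mem_filter, mem_univ, true_and]
  exact and_comm

theorem one_side (hPTH : S_PTH) (hMNS : S_MNS) (hHOO : S_HOO) (hNNK : S_NNK) (hPRB : S_PRB)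
    (hJMP : S_JMP) (hCHE : S_CHE) (hLGB : S_LGB) (hHRM : S_HRM) (hCRX : S_CRX)
    (K : Finset ℕ → Finset ℕ → ℝ) (hK : Race K)
    (P : Type) [Fintype P] [PartialOrder P] (hP : DFor P) (m : ℕ) (hm : 1 ≤ m)
    (hgap : ∀ x y : P, ¬ x ≤ y → ¬ y ≤ x → 2 * (1 / 2 : ℝ) ^ m < |prob P x y - 1 / 2|)
    (x y : P) (hx : ∀ z, x ≤ z → z = x) (hxy : x ≠ y) :
    p1 (HH y) - p1 (HH x) ≤ m + 3 := by
  obtain ⟨h1, h2, h3, h4, h5, h6, h7⟩ := hPTH P hP
  have hnxy : ¬ x ≤ y := fun h => hxy (hx y h).symm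
  have e1 : p1 (HH x) = p1 (ux x y) + p1 (sh x y) := by
    rw [(h3 x y).1]
    exact Finset.sum_union (h3 x y).2
  have e2 : p1 (HH y) = p1 (ux y x) + p1 (sh y x) := by
    rw [(h3 y x).1]
    exact Finset.sum_union (h3 y x).2
  have key := hCRX hJMP hCHE hLGB hHRM K hK m (ux x y) (ux y x) hm (h2 x y).1 (h2 y x).1
    ((h5 x hx).2 y hnxy) (by
      intro s hs _
      obtain ⟨u, huy, hux, rfl⟩ := h7 y x s hs
      have hxu : ¬ x ≤ u := fun h => hnxy (h.trans huy)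
      have hp := hPRB hMNS hHOO hNNK K hK P hP x u hxu hux
      obtain ⟨g1, g2⟩ := h6 x y u huy hux
      have := hgap x u hxu hux
      rw [hp, g1, g2] at this
      exact this)
  rw [e1, e2, sh_comm x y]
  linarith

theorem main : Pool.Agent.N502.FR.S_RNG := by
  intro hPTH hMNS hHOO hNNK hPRB hJMP hCHE hLGB hHRM hCRX K hK P _ _ hP m hm hgap x y hx hy hxy
  have a1 := one_side hPTH hMNS hHOO hNNK hPRB hJMP hCHE hLGB hHRM hCRX K hK P hP m hm hgap x y
    hx hxy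
  have a2 := one_side hPTH hMNS hHOO hNNK hPRB hJMP hCHE hLGB hHRM hCRX K hK P hP m hm hgap y x
    hy hxy.symm
  rw [abs_le]
  constructor <;> linarith

end Pool.Agent.N665.FR_RNG
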